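import Pool.Agent.N210.GO.Inv

/-!
# The joint Sato-Tate law of two families: a lemma of Goursat

`K` is a number field, `G` and `G'` are the Sato-Tate groups of two families as in the problem, and
`x_v ∈ G`, `x'_v ∈ G'` are elements of the classes of the prime `v` of `K` (any elements at the finitely
many exceptional primes; this changes the `L`-functions below by finitely many factors without zeros and
poles in `Re s > 0`).  Suppose that the Sato-Tate law is known for both families.  The Sato-Tate law for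
the sum of the two families is about the pairs `(x_v, x'_v)`.  The criterion of Serre asks for the
continuation without zeros and poles to `Re s ≥ 1` of `L(π ⊗ π', s)`, for irreducible representations
`π` of `G` and `π'` of `G'`.  The theorem assumes only *local meromorphic* continuations at the points of
the line `Re s = 1`, with whatever zeros and poles, and determines all of them and the joint law:

* there are closed normal subgroups `N` of `G` and `N'` of `G'` (the kernels of a common quotient) such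
  that the irreducible representations `π` of `G / N` and `π'` of `G' / N'` correspond to each other,
  with the same degrees and the same multiplicities in tensor products, such that
  `χ_π(x_v) ≈ ε(π) conj χ_{π'}(x'_v)` for almost all `v`, with a sign `ε(π)` that is multiplicative;
* `L(π ⊗ π', s)` has no zeros and poles on `Re s = 1` except at `s = 1` for corresponding `π`, `π'`, where
  the order is `-ε(π)`;
* the pairs `(x_v, x'_v)` have a limit distribution for class functions of `G × G'`; a class function of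
  `x_v` is (almost) a class function of `x'_v` if and only if it is a function on `G / N`;
* the pairs are equidistributed in `G × G'` if and only if `N = G`.

`G` and `G'` are any compact groups.  The only other hypothesis is about representations of degree one
(and is empty if `G` or `G'` has no nontrivial representation of degree one, for instance for `USp(2g)`):
their `L`-functions have no zeros and poles at the points `1 + iτ`, `τ ≠ 0`.
-/

set_option autoImplicit false

namespace Pool.Agent.Results.MP_4c4ce6_nt.CommonQuotient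

open NumberField IsDedekindDomain Filter Topology MeasureTheory
open scoped ComplexConjugate Kronecker

section Definitions

variable {K : Type} [Field K] [NumberField K]

/-- The average of `φ` over the primes of `K` of norm at most `N`. -/
noncomputable def avg (φ : HeightOneSpectrum (𝓞 K) → ℂ) (N : ℕ) : ℂ :=
  (∑ᶠ v : {v : HeightOneSpectrum (𝓞 K) // Ideal.absNorm v.asIdeal ≤ N}, φ v.1) /
    (Nat.card {v : HeightOneSpectrum (𝓞 K) // Ideal.absNorm v.asIdeal ≤ N} : ℂ)

/-- The function `f` is a continuous class function. -/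
def ClassFunction {G : Type} [Group G] [TopologicalSpace G] (f : G → ℂ) : Prop :=
  Continuous f ∧ ∀ g h, f (h * g * h⁻¹) = f g

/-- The classes of the `y v` are equidistributed for `μ`. -/
def Equidistributed {G : Type} [Group G] [TopologicalSpace G] [MeasurableSpace G]
    (y : HeightOneSpectrum (𝓞 K) → G) (μ : Measure G) : Prop :=
  ∀ f : G → ℂ, ClassFunction f → Tendsto (avg fun v => f (y v)) atTop (𝓝 (∫ g, f g ∂μ))

/-- The functions `a` and `b` are almost equal: for every `δ > 0` the set of the primes `v` with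
`|a(v) - b(v)| > δ` has natural density zero, that is, the averages of its indicator function tend
to zero. -/
def AlmostEqual (a b : HeightOneSpectrum (𝓞 K) → ℂ) : Prop :=
  ∀ δ : ℝ, 0 < δ → Tendsto (avg ({v | δ < ‖a v - b v‖}.indicator fun _ => 1)) atTop (𝓝 0)

/-- The character of `π`. -/
noncomputable def tr {G : Type} [Group G] {n : ℕ} (π : G →* Matrix.unitaryGroup (Fin n) ℂ)
    (g : G) : ℂ := (π g : Matrix (Fin n) (Fin n) ℂ).trace

/-- The unitary representation `π` is continuous and irreducible: it is not zero and only the scalars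
commute with all matrices `π g`. -/
structure IsIrreducible {G : Type} [Group G] [TopologicalSpace G] {n : ℕ}
    (π : G →* Matrix.unitaryGroup (Fin n) ℂ) : Prop where
  continuous : Continuous π
  schur : ∀ A : Matrix (Fin n) (Fin n) ℂ, (∀ g, (π g : Matrix (Fin n) (Fin n) ℂ) * A = A * π g) →
    ∃ c : ℂ, A = c • (1 : Matrix (Fin n) (Fin n) ℂ)
  ne_zero : n ≠ 0

variable {G G' : Type} [Group G] [Group G']

/-- The Euler product `L(π ⊗ π', s) = ∏_v det(1 - q_v^{-s} π(x_v) ⊗ π'(x'_v))⁻¹`. -/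
noncomputable def LFun {n n' : ℕ} (π : G →* Matrix.unitaryGroup (Fin n) ℂ)
    (x : HeightOneSpectrum (𝓞 K) → G) (π' : G' →* Matrix.unitaryGroup (Fin n') ℂ)
    (x' : HeightOneSpectrum (𝓞 K) → G') (s : ℂ) : ℂ :=
  ∏' v : HeightOneSpectrum (𝓞 K), (Matrix.det (1 - ((Ideal.absNorm v.asIdeal : ℂ) ^ (-s)) •
    ((π (x v) : Matrix (Fin n) (Fin n) ℂ) ⊗ₖ (π' (x' v) : Matrix (Fin n') (Fin n') ℂ))))⁻¹

/-- `Λ` is a meromorphic continuation of `L(π ⊗ π', s)` to a neighbourhood of `1 + iτ`. -/
def IsContinuation {n n' : ℕ} (π : G →* Matrix.unitaryGroup (Fin n) ℂ)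
    (x : HeightOneSpectrum (𝓞 K) → G) (π' : G' →* Matrix.unitaryGroup (Fin n') ℂ)
    (x' : HeightOneSpectrum (𝓞 K) → G') (τ : ℝ) (Λ : ℂ → ℂ) : Prop :=
  MeromorphicAt Λ (1 + τ * Complex.I) ∧
    ∀ᶠ s in 𝓝 ((1 : ℂ) + τ * Complex.I), (1 : ℝ) < s.re → Λ s = LFun π x π' x' s

/-- `π` and `π'` are partners with the sign `c = ± 1`: the character `χ_π(x_v)` is almost equal to
`c conj χ_{π'}(x'_v)` (this relation is symmetric in `π` and `π'`). -/
def Partners {n n' : ℕ} (π : G →* Matrix.unitaryGroup (Fin n) ℂ)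
    (x : HeightOneSpectrum (𝓞 K) → G) (π' : G' →* Matrix.unitaryGroup (Fin n') ℂ)
    (x' : HeightOneSpectrum (𝓞 K) → G') (c : ℤ) : Prop :=
  (c = 1 ∨ c = -1) ∧ AlmostEqual (fun v => tr π (x v)) fun v => c * conj (tr π' (x' v))

variable [TopologicalSpace G] [TopologicalSpace G']

/-- For all nontrivial irreducible representations `π` of `G` and `π'` of `G'` the function
`L(π ⊗ π', s)` has a meromorphic continuation to a neighbourhood of every point `1 + iτ`. -/
def HasContinuations (x : HeightOneSpectrum (𝓞 K) → G) (x' : HeightOneSpectrum (𝓞 K) → G') :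
    Prop :=
  ∀ (n n' : ℕ) (π : G →* Matrix.unitaryGroup (Fin n) ℂ)
    (π' : G' →* Matrix.unitaryGroup (Fin n') ℂ), IsIrreducible π → IsIrreducible π' →
    (∃ g, π g ≠ 1) → (∃ g, π' g ≠ 1) → ∀ τ : ℝ, ∃ Λ : ℂ → ℂ, IsContinuation π x π' x' τ Λ

/-- For nontrivial representations `ψ`, `ψ'` of degree one of `G`, `G'` the function
`L(ψ ⊗ ψ', s)` has no zero and no pole at the points `1 + iτ`, `τ ≠ 0`. -/
def NoHeights (x : HeightOneSpectrum (𝓞 K) → G) (x' : HeightOneSpectrum (𝓞 K) → G') : Prop :=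
  ∀ (ψ : G →* Matrix.unitaryGroup (Fin 1) ℂ) (ψ' : G' →* Matrix.unitaryGroup (Fin 1) ℂ),
    Continuous ψ → Continuous ψ' → (∃ g, ψ g ≠ 1) → (∃ g, ψ' g ≠ 1) → ∀ τ : ℝ, τ ≠ 0 →
    ∀ Λ : ℂ → ℂ, IsContinuation ψ x ψ' x' τ Λ → meromorphicOrderAt Λ (1 + τ * Complex.I) = 0

/-- Every continuous unitary representation of degree one of `G` is trivial. -/
def NoCharacters (G : Type) [Group G] [TopologicalSpace G] : Prop :=
  ∀ ψ : G →* Matrix.unitaryGroup (Fin 1) ℂ, Continuous ψ → ∀ g, ψ g = 1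

/-- The irreducible representations of `G` with a partner (an irreducible representation of `G'`) are
the ones that are trivial on `N`. -/
def PartnersOn (x : HeightOneSpectrum (𝓞 K) → G) (x' : HeightOneSpectrum (𝓞 K) → G')
    (N : Subgroup G) : Prop :=
  ∀ (n : ℕ) (π : G →* Matrix.unitaryGroup (Fin n) ℂ), IsIrreducible π →
    ((∀ g ∈ N, π g = 1) ↔ ∃ (n' : ℕ) (π' : G' →* Matrix.unitaryGroup (Fin n') ℂ) (c : ℤ),
      IsIrreducible π' ∧ Partners π x π' x' c)

/-- Partners have the same degree, and the character and the sign of the partner of `π` are unique. -/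
def UniquePartners (x : HeightOneSpectrum (𝓞 K) → G) (x' : HeightOneSpectrum (𝓞 K) → G') : Prop :=
  ∀ (n n₁ n₂ : ℕ) (π : G →* Matrix.unitaryGroup (Fin n) ℂ)
    (π₁ : G' →* Matrix.unitaryGroup (Fin n₁) ℂ) (π₂ : G' →* Matrix.unitaryGroup (Fin n₂) ℂ)
    (c₁ c₂ : ℤ), IsIrreducible π → IsIrreducible π₁ → IsIrreducible π₂ →
    Partners π x π₁ x' c₁ → Partners π x π₂ x' c₂ → n = n₁ ∧ tr π₁ = tr π₂ ∧ c₁ = c₂

/-- For all nontrivial irreducible `π`, `π'`: the order of `L(π ⊗ π', s)` at `1` is `-c` if `π` and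
`π'` are partners with the sign `c`; it is zero if they are not partners; the orders at `1 + iτ`,
`τ ≠ 0`, are zero. -/
def Orders (x : HeightOneSpectrum (𝓞 K) → G) (x' : HeightOneSpectrum (𝓞 K) → G') : Prop :=
  ∀ (n n' : ℕ) (π : G →* Matrix.unitaryGroup (Fin n) ℂ)
    (π' : G' →* Matrix.unitaryGroup (Fin n') ℂ), IsIrreducible π → IsIrreducible π' →
    (∃ g, π g ≠ 1) → (∃ g, π' g ≠ 1) → ∀ (τ : ℝ) (Λ : ℂ → ℂ), IsContinuation π x π' x' τ Λ →
    (∀ c : ℤ, τ = 0 → Partners π x π' x' c →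
      meromorphicOrderAt Λ (1 + τ * Complex.I) = ((-c : ℤ) : WithTop ℤ)) ∧
    ((τ ≠ 0 ∨ ∀ c : ℤ, ¬ Partners π x π' x' c) → meromorphicOrderAt Λ (1 + τ * Complex.I) = 0)

/-- The averages of `χ_π(x_v) χ_{π'}(x'_v)` tend to `c` if `π` and `π'` are partners with the sign
`c`, and to zero if they are not partners. -/
def Averages (x : HeightOneSpectrum (𝓞 K) → G) (x' : HeightOneSpectrum (𝓞 K) → G') : Prop :=
  ∀ (n n' : ℕ) (π : G →* Matrix.unitaryGroup (Fin n) ℂ)
    (π' : G' →* Matrix.unitaryGroup (Fin n') ℂ), IsIrreducible π → IsIrreducible π' →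
    (∀ c : ℤ, Partners π x π' x' c →
      Tendsto (avg fun v => tr π (x v) * tr π' (x' v)) atTop (𝓝 c)) ∧
    ((∀ c : ℤ, ¬ Partners π x π' x' c) →
      Tendsto (avg fun v => tr π (x v) * tr π' (x' v)) atTop (𝓝 0))

/-- A continuous class function `f` on `G` is invariant under `N` if and only if `f(x_v)` is almost
equal to `f'(x'_v)` for a continuous class function `f'` on `G'`; then `f'` is unique and invariant
under `N'`. -/
def FunctionsOn (x : HeightOneSpectrum (𝓞 K) → G) (x' : HeightOneSpectrum (𝓞 K) → G')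
    (N : Subgroup G) (N' : Subgroup G') : Prop :=
  ∀ f : G → ℂ, ClassFunction f →
    ((∀ g, ∀ k ∈ N, f (g * k) = f g) ↔ ∃ f' : G' → ℂ, ClassFunction f' ∧
      AlmostEqual (fun v => f (x v)) fun v => f' (x' v)) ∧
    ∀ f' f'' : G' → ℂ, ClassFunction f' → ClassFunction f'' →
      AlmostEqual (fun v => f (x v)) (fun v => f' (x' v)) →
      AlmostEqual (fun v => f (x v)) (fun v => f'' (x' v)) →
      f' = f'' ∧ ∀ g, ∀ k ∈ N', f' (g * k) = f' g

/-- For all nontrivial irreducible `π`, `π'` the order of `L(π ⊗ π', s)` at `s = 1` satisfies `P`. -/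
def OrderAtOne (x : HeightOneSpectrum (𝓞 K) → G) (x' : HeightOneSpectrum (𝓞 K) → G')
    (P : WithTop ℤ → Prop) : Prop :=
  ∀ (n n' : ℕ) (π : G →* Matrix.unitaryGroup (Fin n) ℂ)
    (π' : G' →* Matrix.unitaryGroup (Fin n') ℂ), IsIrreducible π → IsIrreducible π' →
    (∃ g, π g ≠ 1) → (∃ g, π' g ≠ 1) → ∀ Λ : ℂ → ℂ, IsContinuation π x π' x' 0 Λ →
    P (meromorphicOrderAt Λ 1)

variable [MeasurableSpace G] [MeasurableSpace G']

/-- Partners have the same multiplicities in tensor products, and the sign is multiplicative: if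
`π_i` and `π'_i` are partners with the sign `c_i`, `i = 1, 2, 3`, the trivial representation has the
same multiplicity in `π_1 ⊗ π_2 ⊗ π_3` and in `π'_1 ⊗ π'_2 ⊗ π'_3`, and `c_1 c_2 c_3 = 1` if it is not
zero. -/
def SameProducts (x : HeightOneSpectrum (𝓞 K) → G) (x' : HeightOneSpectrum (𝓞 K) → G')
    (μ : Measure G) (μ' : Measure G') : Prop :=
  ∀ (n n' : Fin 3 → ℕ) (π : ∀ i, G →* Matrix.unitaryGroup (Fin (n i)) ℂ)
    (π' : ∀ i, G' →* Matrix.unitaryGroup (Fin (n' i)) ℂ) (c : Fin 3 → ℤ),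
    (∀ i, IsIrreducible (π i)) → (∀ i, IsIrreducible (π' i)) →
    (∀ i, Partners (π i) x (π' i) x' (c i)) →
    ∫ g, tr (π 0) g * tr (π 1) g * tr (π 2) g ∂μ =
      ∫ g, tr (π' 0) g * tr (π' 1) g * tr (π' 2) g ∂μ' ∧
    (∫ g, tr (π 0) g * tr (π 1) g * tr (π 2) g ∂μ ≠ 0 → c 0 * c 1 * c 2 = 1)

end Definitions

section Bridge

set_option linter.unusedSectionVars false

open Pool.Agent.TH553.ST Pool.Agent.TH553.RS Pool.Agent.W540.BE Pool.Agent.N210.JN
  Pool.Agent.N210.GO

variable {K : Type} [Field K] [NumberField K]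

theorem avg_eq (g : HeightOneSpectrum (𝓞 K) → ℂ) : avg g = mn g := by
  funext N
  have hs : ∀ v, v ∈ upto K N ↔ Ideal.absNorm v.asIdeal ≤ N := fun v => mem_upto
  let e : {v : HeightOneSpectrum (𝓞 K) // Ideal.absNorm v.asIdeal ≤ N} ≃ (upto K N) :=
    Equiv.subtypeEquivRight fun v => (hs v).symm
  have hfin : Finite {v : HeightOneSpectrum (𝓞 K) // Ideal.absNorm v.asIdeal ≤ N} :=
    Finite.of_equiv _ e.symm
  unfold avg mn
  have h1 : (∑ᶠ v : {v : HeightOneSpectrum (𝓞 K) // Ideal.absNorm v.asIdeal ≤ N}, g v.1) =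
      ∑ v ∈ upto K N, g v := by
    rw [← Finset.sum_coe_sort, ← finsum_eq_sum_of_fintype, ← finsum_comp_equiv e]
    rfl
  have h2 : Nat.card {v : HeightOneSpectrum (𝓞 K) // Ideal.absNorm v.asIdeal ≤ N} =
      (upto K N).card := by
    rw [Nat.card_congr e, Nat.card_eq_fintype_card, Fintype.card_coe]
  rw [h1, h2, Complex.real_smul, div_eq_inv_mul]
  push_cast
  rfl

theorem av_iff (g : HeightOneSpectrum (𝓞 K) → ℂ) (c : ℂ) :
    Tendsto (avg g) atTop (𝓝 c) ↔ Av g c := by
  rw [avg_eq]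
  rfl

theorem dz_iff (s : Set (HeightOneSpectrum (𝓞 K))) :
    Tendsto (avg (s.indicator fun _ => 1)) atTop (𝓝 0) ↔ Dz s := by
  rw [avg_eq]
  unfold Dz
  have e : (mn (s.indicator fun _ => (1 : ℂ)) : ℕ → ℂ) =
      fun N => ((mn (s.indicator fun _ => (1 : ℝ)) N : ℝ) : ℂ) := by
    funext N
    rw [ofReal_mn]
    congr 1
    funext v
    by_cases hv : v ∈ s
    · rw [Set.indicator_of_mem hv, Set.indicator_of_mem hv, Complex.ofReal_one]
    · rw [Set.indicator_of_notMem hv, Set.indicator_of_notMem hv, Complex.ofReal_zero]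
  rw [e]
  constructor
  · intro h
    have := (Complex.continuous_re.tendsto _).comp h
    exact this
  · intro h
    have := (Complex.continuous_ofReal.tendsto _).comp h
    rw [Complex.ofReal_zero] at this
    exact this

theorem almost_iff {a b : HeightOneSpectrum (𝓞 K) → ℂ} (h : Bc fun v => a v - b v) :
    AlmostEqual a b ↔ Sm fun v => a v - b v := by
  unfold AlmostEqual
  constructor
  · intro h1
    exact Sm.of_dz h fun δ hδ => (dz_iff _).1 (h1 δ hδ)
  · intro h1 δ hδ
    exact (dz_iff _).2 (h1.dz hδ)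

theorem bc_sub {a b : HeightOneSpectrum (𝓞 K) → ℂ} (ha : Bc a) (hb : Bc b) :
    Bc fun v => a v - b v := by
  obtain ⟨C, hC⟩ := ha
  obtain ⟨D, hD⟩ := hb
  exact ⟨C + D, fun v => (norm_sub_le _ _).trans (add_le_add (hC v) (hD v))⟩

theorem sign_of {c : ℤ} (h : c = 1 ∨ c = -1) : ((c : ℤ) : ℝ) ^ 2 = 1 := by
  rcases h with h | h <;> simp [h]

theorem exists_sign {c : ℝ} (h : c ^ 2 = 1) : ∃ z : ℤ, (z = 1 ∨ z = -1) ∧ (z : ℝ) = c := by
  rcases sq_eq_one_iff_of_side c h with h | h
  · exact ⟨1, Or.inl rfl, by simp [h]⟩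
  · exact ⟨-1, Or.inr rfl, by simp [h]⟩

variable {G : Type} [Group G] [TopologicalSpace G] [IsTopologicalGroup G] [CompactSpace G]
  [T2Space G] [SecondCountableTopology G] [MeasurableSpace G] [BorelSpace G] {μ : Measure G}
  [IsProbabilityMeasure μ] [μ.IsHaarMeasure]
  {G' : Type} [Group G'] [TopologicalSpace G'] [IsTopologicalGroup G'] [CompactSpace G']
  [T2Space G'] [SecondCountableTopology G'] [MeasurableSpace G'] [BorelSpace G'] {μ' : Measure G'}
  [IsProbabilityMeasure μ'] [μ'.IsHaarMeasure]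
  {x : HeightOneSpectrum (𝓞 K) → G} {x' : HeightOneSpectrum (𝓞 K) → G'}

theorem law_of (h : Equidistributed x μ) : Law x μ := by
  intro f hf hcl
  have h1 := h (fun g => (f g : ℂ)) ⟨Complex.continuous_ofReal.comp hf, fun g h => by simp only [hcl]⟩
  have h0 : ∫ g, (f g : ℂ) ∂μ = ((∫ g, f g ∂μ : ℝ) : ℂ) := integral_ofReal
  rw [avg_eq, h0] at h1
  have h2 := (Complex.continuous_re.tendsto _).comp h1
  refine h2.congr fun N => ?_
  simp only [Function.comp]
  rw [re_mn]
  rfl

theorem joint_iff : Equidistributed (fun v => (x v, x' v)) (μ.prod μ') ↔ JL2 μ μ' x x' := by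
  unfold Equidistributed JL2
  simp only [av_iff]
  exact ⟨fun h F h1 h2 => h F ⟨h1, h2⟩, fun h F h1 => h F h1.1 h1.2⟩

theorem irr_iff {n : ℕ} {π : G →* Matrix.unitaryGroup (Fin n) ℂ} :
    IsIrreducible π ↔ Irr π :=
  ⟨fun h => ⟨h.1, h.2, h.3⟩, fun h => ⟨h.1, h.2, h.3⟩⟩

theorem partners_iff {n n' : ℕ} {π : G →* Matrix.unitaryGroup (Fin n) ℂ}
    {π' : G' →* Matrix.unitaryGroup (Fin n') ℂ} {c : ℤ} :
    Partners π x π' x' c ↔ (c = 1 ∨ c = -1) ∧ Mt x x' (c : ℝ) π π' := by
  unfold Partners Mt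
  refine and_congr Iff.rfl ?_
  have h1 : Bc fun v => tr π (x v) - (c : ℂ) * conj (tr π' (x' v)) :=
    bc_sub (bc_chi π x) ((Bc.const (c : ℂ)).mul (bc_chi π' x').conj)
  rw [almost_iff h1]
  have e : (fun v => tr π (x v) - (c : ℂ) * conj (tr π' (x' v))) =
      fun v => chi π (x v) - (((c : ℤ) : ℝ) : ℂ) * conj (chi π' (x' v)) := by
    funext v
    rw [Complex.ofReal_intCast]
    rfl
  rw [e]

/-- from real to integral signs -/
theorem exists_partner_iff {n : ℕ} {π : G →* Matrix.unitaryGroup (Fin n) ℂ} :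
    (∃ (n' : ℕ) (π' : G' →* Matrix.unitaryGroup (Fin n') ℂ) (c : ℤ),
      IsIrreducible π' ∧ Partners π x π' x' c) ↔
    ∃ (n' : ℕ) (π' : G' →* Matrix.unitaryGroup (Fin n') ℂ) (c : ℝ), Irr π' ∧ c ^ 2 = 1 ∧
      Mt x x' c π π' := by
  constructor
  · rintro ⟨n', π', c, h1, h2⟩
    obtain ⟨h3, h4⟩ := partners_iff.1 h2
    exact ⟨n', π', c, irr_iff.1 h1, sign_of h3, h4⟩
  · rintro ⟨n', π', c, h1, h2, h3⟩
    obtain ⟨z, h4, h5⟩ := exists_sign h2
    refine ⟨n', π', z, irr_iff.2 h1, partners_iff.2 ⟨h4, ?_⟩⟩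
    rw [h5]
    exact h3

theorem mero_of (h : HasContinuations x x') : Mero2 x x' := by
  intro n n' π π' hi hi' ht ht' τ
  exact h n n' π π' (irr_iff.2 hi) (irr_iff.2 hi') ht ht' τ

theorem nh_of (h : NoHeights x x') : NH x x' :=
  fun ψ ψ' hψ hψ' ht ht' τ hτ Λ h1 h2 => h ψ ψ' hψ hψ' ht ht' τ hτ Λ ⟨h1, h2⟩

theorem bc_class {f : G → ℂ} (hf : Continuous f) (x : HeightOneSpectrum (𝓞 K) → G) :
    Bc fun v => f (x v) := by
  obtain ⟨C, hC⟩ := (isCompact_univ (X := G)).exists_bound_of_continuousOn hf.continuousOn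
  exact ⟨C, fun v => hC _ (Set.mem_univ _)⟩

theorem partnersOn (hx : Law x μ) (hx' : Law x' μ') (hP : HP x x') :
    PartnersOn x x' (kerP (PS x x')) := by
  intro n π hπ
  rw [exists_partner_iff]
  exact partner_iff hx hx' hP (irr_iff.1 hπ)

theorem functionsOn (hx : Law x μ) (hx' : Law x' μ') (hP : HP x x') :
    FunctionsOn x x' (kerP (PS x x')) (kerP (PS x' x)) := by
  intro f hf
  have hb := bc_class hf.1 x
  refine ⟨⟨fun h => ?_, fun ⟨f', h1, h2⟩ => ?_⟩, fun f' f'' h1 h1' h2 h2' => ?_⟩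
  · obtain ⟨f', h1, h2, -, h4⟩ := pf_exists hx hx' hP hf.1 hf.2 h
    exact ⟨f', ⟨h1, h2⟩, (almost_iff (bc_sub hb (bc_class h1 x'))).2 h4⟩
  · rw [almost_iff (bc_sub hb (bc_class h1.1 x'))] at h2
    exact fun g k hk => inv_of_partner hx hx' hP hf.1 hf.2 h1.1 h1.2 h2 g k hk
  · rw [almost_iff (bc_sub hb (bc_class h1.1 x'))] at h2
    rw [almost_iff (bc_sub hb (bc_class h1'.1 x'))] at h2'
    have h3 := h2'.sub h2
    constructor
    · funext g
      have h4 := zero_of_small hx' (Φ := fun g => f' g - f'' g) (h1.1.sub h1'.1)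
        (fun g h => by rw [h1.2, h1'.2]) (h3.of_le (C := 1) fun v => by
          rw [one_mul]
          apply le_of_eq
          congr 1
          ring) g
      exact sub_eq_zero.1 h4
    · intro g k hk
      have h4 : Sm fun v => f' (x' v) - f (x v) := h2.of_le (C := 1) fun v => by
        rw [one_mul, norm_sub_rev]
      exact inv_of_partner hx' hx hP.symm h1.1 h1.2 hf.1 hf.2 h4 g k hk

theorem unique_of (hx : Law x μ) (hx' : Law x' μ') : UniquePartners x x' := by
  intro n n₁ n₂ π π₁ π₂ c₁ c₂ hi h₁ h₂ p₁ p₂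
  obtain ⟨s₁, m₁⟩ := partners_iff.1 p₁
  obtain ⟨s₂, m₂⟩ := partners_iff.1 p₂
  obtain ⟨h3, h4, h5⟩ := Mt.unique hx' (sign_of s₁) (sign_of s₂) (irr_iff.1 h₁)
    (irr_iff.1 h₂) m₁ m₂
  exact ⟨m₁.dim hx hx' hi.1 h₁.1 (sign_of s₁), funext h5, by exact_mod_cast h3⟩

theorem orderAtOne_iff (P : WithTop ℤ → Prop) : OrderAtOne x x' P ↔
    ∀ (n n' : ℕ) (π : G →* Matrix.unitaryGroup (Fin n) ℂ)
    (π' : G' →* Matrix.unitaryGroup (Fin n') ℂ), Irr π → Irr π' → (∃ g, π g ≠ 1) →
    (∃ g, π' g ≠ 1) → ∀ Λ : ℂ → ℂ, MeromorphicAt Λ (1 + (0 : ℝ) * Complex.I) →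
      (∀ᶠ s in 𝓝 ((1 : ℂ) + (0 : ℝ) * Complex.I), (1 : ℝ) < s.re → Λ s = LP π x π' x' s) →
      P (meromorphicOrderAt Λ (1 + (0 : ℝ) * Complex.I)) := by
  have e : ((1 : ℂ) + ((0 : ℝ) : ℂ) * Complex.I) = 1 := by simp
  constructor
  · intro h n n' π π' hi hi' ht ht' Λ h1 h2
    rw [e]
    exact h n n' π π' (irr_iff.2 hi) (irr_iff.2 hi') ht ht' Λ ⟨h1, h2⟩
  · intro h n n' π π' hi hi' ht ht' Λ h1
    have h2 := h n n' π π' (irr_iff.1 hi) (irr_iff.1 hi') ht ht' Λ h1.1 h1.2
    rw [e] at h2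
    exact h2

end Bridge

variable {K : Type} [Field K] [NumberField K]
  {G : Type} [Group G] [TopologicalSpace G] [IsTopologicalGroup G] [CompactSpace G]
  [T2Space G] [SecondCountableTopology G] [MeasurableSpace G] [BorelSpace G] {μ : Measure G}
  [IsProbabilityMeasure μ] [μ.IsHaarMeasure]
  {G' : Type} [Group G'] [TopologicalSpace G'] [IsTopologicalGroup G'] [CompactSpace G']
  [T2Space G'] [SecondCountableTopology G'] [MeasurableSpace G'] [BorelSpace G'] {μ' : Measure G'}
  [IsProbabilityMeasure μ'] [μ'.IsHaarMeasure]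
  {x : HeightOneSpectrum (𝓞 K) → G} {x' : HeightOneSpectrum (𝓞 K) → G'}

open Pool.Agent.TH553.ST Pool.Agent.TH553.RS Pool.Agent.W540.BE Pool.Agent.N210.JN
  Pool.Agent.N210.GO in
/-- **Two families with the Sato-Tate law.**  Suppose that the `x_v` are equidistributed in `G` and the
`x'_v` in `G'`, and that the functions `L(π ⊗ π', s)` have local meromorphic continuations at the points
of `Re s = 1` (and no zeros and poles at `1 + iτ`, `τ ≠ 0`, if `π` and `π'` have degree one).  Then there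
are closed normal subgroups `N` and `N'` such that the irreducible representations of `G / N` and
`G' / N'` are the ones with a partner; these correspond to each other with the same degrees and the same
tensor products; they give all zeros and poles of the `L(π ⊗ π', s)` on `Re s = 1` and the joint law, and
`G / N` gives the common class functions of `x_v` and `x'_v`.  The pairs are equidistributed in `G × G'`
if and only if `N = G`. -/
theorem result (hx : Equidistributed x μ) (hx' : Equidistributed x' μ')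
    (hM : HasContinuations x x') (hH : NoHeights x x') :
    ∃ (N : Subgroup G) (N' : Subgroup G'),
      (N.Normal ∧ IsClosed (N : Set G) ∧ N'.Normal ∧ IsClosed (N' : Set G')) ∧
      (PartnersOn x x' N ∧ PartnersOn x' x N' ∧ UniquePartners x x' ∧ UniquePartners x' x ∧
        SameProducts x x' μ μ') ∧
      (Orders x x' ∧ Averages x x') ∧
      (∀ F : G × G' → ℂ, ClassFunction F →
        ∃ L : ℂ, Tendsto (avg fun v => F (x v, x' v)) atTop (𝓝 L)) ∧
      (FunctionsOn x x' N N' ∧ FunctionsOn x' x N' N) ∧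
      (List.TFAE [Equidistributed (fun v => (x v, x' v)) (μ.prod μ'), N = ⊤,
        OrderAtOne x x' fun m => m = 0]) ∧
      (NoCharacters G → (Equidistributed (fun v => (x v, x' v)) (μ.prod μ') ↔
        OrderAtOne x x' fun m => 0 ≤ m)) := by
  have lx := law_of hx
  have lx' := law_of hx'
  have mM := mero_of hM
  have hO := oz_of_nh lx lx' mM (nh_of hH)
  have hP := hp_of hO lx lx' mM
  have hav : ∀ (n n' : ℕ) (π : G →* Matrix.unitaryGroup (Fin n) ℂ)
      (π' : G' →* Matrix.unitaryGroup (Fin n') ℂ), IsIrreducible π → IsIrreducible π' →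
      (∀ c : ℤ, ¬ Partners π x π' x' c) → Av (fun v => chi π (x v) * chi π' (x' v)) 0 := by
    intro n n' π π' hi hi' hno
    obtain ⟨c, h1, h2⟩ := hP n n' π π' (irr_iff.1 hi) (irr_iff.1 hi')
    rcases h1 with h1 | h1
    · rw [h1] at h2
      simpa using h2
    · exfalso
      obtain ⟨z, h3, h4⟩ := exists_sign h1
      refine hno z (partners_iff.2 ⟨h3, ?_⟩)
      rw [h4]
      exact Mt.of_av lx lx' (irr_iff.1 hi) (irr_iff.1 hi') h1 h2
  refine ⟨kerP (PS x x'), kerP (PS x' x), ⟨inferInstance, (sy lx lx' hP).closed, inferInstance,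
    (sy lx' lx hP.symm).closed⟩, ⟨partnersOn lx lx' hP, partnersOn lx' lx hP.symm,
      unique_of lx lx', unique_of lx' lx, ?_⟩,
    ⟨?_, ?_⟩, ?_, ⟨functionsOn lx lx' hP, functionsOn lx' lx hP.symm⟩, ?_, ?_⟩
  · intro n n' π π' c hi hi' hp
    have h1 := fun i => (partners_iff.1 (hp i)).1
    have h2 := fun i => (partners_iff.1 (hp i)).2
    obtain ⟨h3, h4⟩ := fusion lx lx' (irr_iff.1 (hi 0)) (irr_iff.1 (hi 1)) (irr_iff.1 (hi 2))
      (irr_iff.1 (hi' 0)) (irr_iff.1 (hi' 1)) (irr_iff.1 (hi' 2)) (sign_of (h1 0))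
      (sign_of (h1 1)) (sign_of (h1 2)) (h2 0) (h2 1) (h2 2)
    exact ⟨h3, fun h => by exact_mod_cast h4 h⟩
  · intro n n' π π' hi hi' ht ht' τ Λ h1
    obtain ⟨m, h2, h3, h4⟩ := order_all hO mM (irr_iff.1 hi) (irr_iff.1 hi') ht ht' h1.1 h1.2
    refine ⟨fun c hτ hp => ?_, fun h => ?_⟩
    · have h5 := (h4 hτ).unique ((partners_iff.1 hp).2.av lx' (irr_iff.1 hi'))
      have h6 : m = -c := by
        have h7 : ((-m : ℤ) : ℂ) = ((c : ℤ) : ℂ) := by
          push_cast
          rw [h5]
          simp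
        have h8 : -m = c := by exact_mod_cast h7
        omega
      rw [h2, h6]
    · have h5 : m = 0 := by
        by_cases hτ : τ = 0
        · have h6 := h.resolve_left (fun h => h hτ)
          have h7 := (h4 hτ).unique (hav n n' π π' hi hi' h6)
          have h8 : (m : ℂ) = 0 := by linear_combination -h7
          exact_mod_cast h8
        · exact h3 hτ
      rw [h2, h5]
      rfl
  · intro n n' π π' hi hi'
    refine ⟨fun c hp => ?_, fun h => (av_iff _ _).2 (hav n n' π π' hi hi' h)⟩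
    have h1 := (partners_iff.1 hp).2.av lx' (irr_iff.1 hi')
    rw [Complex.ofReal_intCast] at h1
    exact (av_iff _ _).2 h1
  · intro F hF
    obtain ⟨L, hL⟩ := joint_exists hP hF.1 hF.2
    exact ⟨L, (av_iff _ _).2 hL⟩
  · rw [joint_iff, orderAtOne_iff]
    tfae_have 1 → 3 := fun h => noOrd_of_joint hO mM h
    tfae_have 3 → 2 := fun h => top_of_noOrd hO lx lx' mM h
    tfae_have 2 → 1 := fun h => joint_of_top lx lx' hP h
    tfae_finish
  · intro hG
    rw [joint_iff, orderAtOne_iff]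
    exact ⟨fun h => noPole_of_noOrd (noOrd_of_joint hO mM h),
      fun h => joint_of_top lx lx' hP (top_of_noPole hG lx lx' mM h)⟩

end Pool.Agent.Results.MP_4c4ce6_nt.CommonQuotient
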