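import Pool.Agent.N842.HS.NFX

/-!
# The Sato-Tate law, up to an error which is very small if the degree is large, for almost all hypersurfaces of odd dimension over number fields

Let `K` be a number field and `ω_0, ..., ω_(g-1)` elements of its ring of integers such that `1` is a linear combination of them with
integral coefficients, for instance an integral basis.  The hypersurface `X` of degree `d` in the projective space of dimension `n + 1`
over `K` is the projective closure of `∑ x_i ^ d + ∑ c_α x ^ α = 0`, where `x = (x_0, ..., x_n)` and `α` runs through the exponents of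
all monomials of degree less than `d`; the coefficients are `c_α = ∑ m_(α,j) ω_j` with integers `m_(α,j) ≥ 0`.

The prime ideals of `K` of degree one above the prime number `p` correspond to the homomorphisms `φ : 𝓞 K → F_p`.

The Sato-Tate group of a general hypersurface of odd dimension is the compact symplectic group, and up to errors which are very small
the traces of the powers of a random matrix in this group of large rank are independent normal variables, the trace of the `k`-th power
having variance `k` and mean `-1` for even `k` and `0` for odd `k`.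
-/

set_option autoImplicit false

namespace Pool.Agent.Results.MP_4c4ce6_nt.HypersurfacesNumberFields

open Finset NumberField

/-- The exponents of the monomials of degree less than `d` in the variables `x_0, ..., x_n`. -/
abbrev Exponent (n d : ℕ) : Type := {α : Fin (n + 1) → Fin d // ∑ i, (α i : ℕ) < d}

/-- The coefficients `c_i = ∑ m_(i,j) ω_j`. -/
def coeff {R : Type} [CommRing R] {g D : ℕ} (ω : Fin g → R) (m : Fin (D * g) → ℕ) (i : Fin D) : R :=
  ∑ j, (m (finProdFinEquiv (i, j)) : R) * ω j

/-- The polynomial `∑ x_i ^ d + ∑ u_k x ^ (e k)` over the ring `R`, where `e` is an enumeration of the exponents. -/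
noncomputable def poly {R : Type} [CommRing R] {n d D : ℕ} (e : Fin D ≃ Exponent n d) (u : Fin D → R) : MvPolynomial (Fin (n + 1)) R :=
  ∑ i, MvPolynomial.X i ^ d + ∑ k, MvPolynomial.C (u k) * ∏ i, MvPolynomial.X i ^ ((e k).1 i : ℕ)

/-- The number of the points over the field with `q = p ^ k` elements of the hypersurface over the field with `p` elements with the
coefficients `u`: the number of the zeros of the polynomial (these are the points outside the hyperplane at infinity), and the number
of the nonzero solutions of `∑ x_i ^ d = 0` divided by `q - 1` (these are the points at infinity). -/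
noncomputable def points {n d D : ℕ} (e : Fin D ≃ Exponent n d) (k p : ℕ) [Fact p.Prime] (u : Fin D → ZMod p) : ℝ :=
  (Nat.card {x : Fin (n + 1) → GaloisField p k // MvPolynomial.eval x (poly e (fun i => algebraMap (ZMod p) (GaloisField p k) (u i))) = 0} : ℝ) +
    ((Nat.card {x : Fin (n + 1) → GaloisField p k // ∑ i, x i ^ d = 0} : ℝ) - 1) / ((p : ℝ) ^ k - 1)

/-- The trace of the `k`-th power of the normalised Frobenius automorphism (that is, the Frobenius automorphism divided by
`p ^ (n / 2)`) on the primitive part of the cohomology `H ^ n` of this hypersurface: the number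
`(-1) ^ n (#X(F_q) - (1 + q + ... + q ^ n)) / q ^ (n / 2)`, where `q = p ^ k`. -/
noncomputable def trace {n d D : ℕ} (e : Fin D ≃ Exponent n d) (k p : ℕ) [Fact p.Prime] (u : Fin D → ZMod p) : ℝ :=
  (-1) ^ n * ((points e k p u - ∑ i ∈ range (n + 1), ((p : ℝ) ^ k) ^ i) / (Real.sqrt p ^ k) ^ n)

/-- `p` does not divide `d`, and the polynomial and its partial derivatives do not have a common zero over the algebraic closure of
the field with `p` elements, so that the hypersurface is smooth. -/
def Smooth {n d D : ℕ} (e : Fin D ≃ Exponent n d) (p : ℕ) [Fact p.Prime] (u : Fin D → ZMod p) : Prop :=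
  ¬ p ∣ d ∧ ¬ ∃ x : Fin (n + 1) → AlgebraicClosure (ZMod p),
    MvPolynomial.eval x (poly e (fun i => algebraMap (ZMod p) (AlgebraicClosure (ZMod p)) (u i))) = 0 ∧
    ∀ i, MvPolynomial.eval x (MvPolynomial.pderiv i (poly e (fun i => algebraMap (ZMod p) (AlgebraicClosure (ZMod p)) (u i)))) = 0

open Classical in
/-- The test function `cos (∑ τ_k t_k + v)`, where `t_k` is the trace with the number `k` (`1 ≤ k ≤ l`; the index of `τ` is
`k - 1`), if the hypersurface over the field with `p` elements with the coefficients `u` is smooth, and `0` otherwise. -/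
noncomputable def test {n d D l : ℕ} (e : Fin D ≃ Exponent n d) (θ : (Fin l → ℝ) × ℝ) (p : ℕ) [Fact p.Prime] (u : Fin D → ZMod p) : ℝ :=
  if Smooth e p u then Real.cos (∑ k : Fin l, θ.1 k * trace e (k + 1) p u + θ.2) else 0

/-- The `s`-tuples of prime ideals of degree one of `K`, the `i`-th of them above the prime number `p_(j + i)`, where `p_0 = 2, p_1, ...`
are the prime numbers: the prime ideals of degree one above `p` are given by the homomorphisms `φ : 𝓞 K → F_p`. -/
abbrev Tuple (K : Type) [Field K] [NumberField K] (s j : ℕ) : Type := (i : Fin s) → (𝓞 K →+* ZMod (Nat.nth Nat.Prime (j + i)))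

/-- The number `∑ k τ_k ^ 2`, the variance of `∑ τ_k Z_k` for independent normal variables `Z_k` with the variances `k`. -/
def variance {l : ℕ} (τ : Fin l → ℝ) : ℝ := ∑ k : Fin l, ((k + 1 : ℕ) : ℝ) * τ k ^ 2

open Classical in
/-- The mean of `cos (∑ τ_k Z_k + v)` for independent normal variables `Z_k` with the variances `k` and the means `-1` for
even `k` and `0` for odd `k`. -/
noncomputable def mainTerm {l : ℕ} (θ : (Fin l → ℝ) × ℝ) : ℝ :=
  Real.cos (θ.2 - ∑ k : Fin l, θ.1 k * (if Even ((k : ℕ) + 1) then 1 else 0)) * Real.exp (-variance θ.1 / 2)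

/-- The number `2 (variance / 2) ^ h / h!`. -/
noncomputable def err {l : ℕ} (h : ℕ) (τ : Fin l → ℝ) : ℝ := 2 * (variance τ / 2) ^ h / Nat.factorial h

/-- For all weights `w` in `W` and all `θ_0, ..., θ_(s-1)` in `Q`: the weighted sum, over all the `s`-tuples of prime ideals of degree
one above `s` consecutive prime numbers `p_j, ..., p_(j+s-1)`, `j < x`, of the products of the test functions of the reductions of `X`
with the parameters `θ_i` differs from the same sum of the products of the main terms at most by
`(max 1 (∑ w ^ 2)) ^ (1 / 2) x ^ δ` plus `∑ err` times `∑ |w|`. -/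
def Law {K : Type} [Field K] [NumberField K] {g n d D l : ℕ} (ω : Fin g → 𝓞 K) (e : Fin D ≃ Exponent n d) (h s : ℕ) (δ : ℝ)
    (Q : Finset ((Fin l → ℝ) × ℝ)) (W : Set ((j : ℕ) → Tuple K s j → ℝ)) (x : ℕ) (m : Fin (D * g) → ℕ) : Prop :=
  ∀ w ∈ W, ∀ θ : Fin s → (Fin l → ℝ) × ℝ, (∀ i, θ i ∈ Q) →
    |∑ j ∈ range x, ∑ᶠ φ : Tuple K s j,
        w j φ * (∏ i : Fin s, test e (θ i) (Nat.nth Nat.Prime (j + i)) (fun k => φ i (coeff ω m k)) - ∏ i : Fin s, mainTerm (θ i))| ≤
      Real.sqrt (max 1 (∑ j ∈ range x, ∑ᶠ φ : Tuple K s j, w j φ ^ 2)) * (x : ℝ) ^ δ +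
        (∑ i : Fin s, err h (θ i).1) * ∑ j ∈ range x, ∑ᶠ φ : Tuple K s j, |w j φ|

/-- The digit number `i` (counted from the right, beginning with `0`) of `n` in base `b`. -/
def digit (b i n : ℕ) : ℕ := n / b ^ i % b

/-- The number which arises from the number `N` with at most `L` digits in base `b`, if for every `i ∈ S`
the digit number `i` is replaced by `f i`. -/
def change (b L N : ℕ) (f : ℕ → ℕ) (S : Finset ℕ) : ℕ :=
  ∑ i ∈ range L, (if i ∈ S then f i else digit b i N) * b ^ i

open Classical in
/-- The number of the choices of `r j` of `L j` positions for all `j` for which the tuple of the numbers obtained by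
changing the digits of the `N j` at the chosen positions (according to `f j`) does not have the property `E`. -/
noncomputable def exceptions {d : ℕ} (b : ℕ) (L r N : Fin d → ℕ) (f : Fin d → ℕ → ℕ) (E : (Fin d → ℕ) → Prop) : ℕ :=
  ((Fintype.piFinset (fun j => powersetCard (r j) (range (L j)))).filter
    (fun S => ¬ E (fun j => change b (L j) (N j) (f j) (S j)))).card

lemma exc_eq {d : ℕ} (b : ℕ) (L r N : Fin d → ℕ) (f : Fin d → ℕ → ℕ) (E : (Fin d → ℕ) → Prop) :
    exceptions b L r N f E = Pool.Agent.Y57.FD.exceptions b L r N f E := rfl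

section
variable {n d D l : ℕ} (e : Fin D ≃ Exponent n d)

lemma eval_poly (p : ℕ) [Fact p.Prime] (k : ℕ) (u : Fin D → ZMod p) (x : Fin (n + 1) → GaloisField p k) :
    MvPolynomial.eval x (poly e (fun i => algebraMap (ZMod p) (GaloisField p k) (u i))) =
      MvPolynomial.aeval x (Pool.Agent.N842.HS.fpl p (N := n + 1) e u) := by
  unfold poly Pool.Agent.N842.HS.fpl Pool.Agent.N842.HS.lowp
  rw [map_add, map_add, map_sum, map_sum, map_sum, map_sum]
  congr 1
  · refine sum_congr rfl fun i _ => ?_
    rw [map_pow, map_pow, MvPolynomial.eval_X, MvPolynomial.aeval_X]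
  · refine sum_congr rfl fun k _ => ?_
    rw [map_mul, MvPolynomial.eval_C, map_prod, MvPolynomial.aeval_monomial, Finsupp.prod_fintype _ _ (fun _ => pow_zero _)]
    congr 1
    refine prod_congr rfl fun i _ => ?_
    rw [map_pow, MvPolynomial.eval_X]
    rfl

lemma smooth_iff (p : ℕ) [Fact p.Prime] (u : Fin D → ZMod p) :
    Smooth e p u ↔ ¬ p ∣ d ∧ ¬ Pool.Agent.N842.HS.Sing (N := n + 1) e p u := by
  unfold Smooth Pool.Agent.N842.HS.Sing poly Pool.Agent.N842.HS.PF
  exact Iff.rfl

lemma trace_eq (p : ℕ) [Fact p.Prime] (k : ℕ) (u : Fin D → ZMod p) :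
    trace e k p u = Pool.Agent.N842.HS.trk (N := n + 1) e p k u := by
  unfold trace Pool.Agent.N842.HS.trk points Pool.Agent.N842.HS.infp
  simp only [eval_poly]
  rfl

lemma test_eq (θ : (Fin l → ℝ) × ℝ) (p : ℕ) [Fact p.Prime] (u : Fin D → ZMod p) :
    test e θ p u = Pool.Agent.N842.HS.Tk (N := n + 1) e p θ.1 θ.2 u := by
  classical
  unfold test Pool.Agent.N842.HS.Tk
  by_cases h : Smooth e p u
  · rw [if_pos h, if_pos ((smooth_iff e p u).1 h)]
    congr 2
    refine sum_congr rfl fun k _ => ?_
    rw [trace_eq]
  · rw [if_neg h, if_neg (fun h' => h ((smooth_iff e p u).2 h'))]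

lemma main_eq (hn : Odd n) (θ : (Fin l → ℝ) × ℝ) : mainTerm θ = Pool.Agent.N842.HS.mnk (n + 1) θ.1 θ.2 := by
  classical
  unfold mainTerm Pool.Agent.N842.HS.mnk
  have h1 : ((-1 : ℝ)) ^ (n + 1 - 1) = -1 := by
    rw [Nat.add_sub_cancel]
    exact hn.neg_one_pow
  rw [h1, neg_one_mul, ← sub_eq_add_neg]
  rfl

end

/-- Let `K` be a number field, `ω_0, ..., ω_(g-1)` in `𝓞 K` such that `1` is in the group generated by them, `n` odd, and let a degree
`d`, integers `h, l` with `h ≥ 1` and `2 h l ≤ d`, `s ≥ 1`, a base `b ≥ 2`, `δ > 0`, integers `A, B ≥ 0` and a finite set `Q` of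
parameters `(τ, v)` be given.  There are `c > 0` and `y₀` such that for all integers `r j`, `L j` (`j < D g`, where `D` is the number
of the monomials of degree less than `d` in `n + 1` variables), `y` with `2 r j ≤ L j` and `y ≥ y₀` the following holds.

Let `0 ≤ N' j < b ^ L j` be arbitrary integers, prescribe for every position `t` a digit `f j t` different from the digit of
`N' j` in base `b`, and let for every `x` an arbitrary set `W x` of at most `x ^ B` weights with values in `[-1, 1]`, defined on the
`s`-tuples of prime ideals of degree one of `K` above `s` consecutive prime numbers, be given.  If one chooses `r j` of the `L j`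
positions and replaces the digits of `N' j` at these positions, then for all but at most a proportion `1 / y ^ A` of the choices the
hypersurface `X` over `K` of dimension `n` with the numbers `m j` obtained has the following property: for all integers `x` with
`y ≤ x ≤ exp (c r j)` for all `j` the joint law of the traces of the first `l` powers of the normalised Frobenius automorphisms on
the primitive part of `H ^ n(X)` at these `s`-tuples of prime ideals is, in the weighted mean over the first `x` prime numbers, the law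
of independent normal variables with the variances `k` and the means `-1` for even `k` and `0` for odd `k`, in the sense of the
property `Law`: for all characteristic functions with parameters in `Q`, up to `2 (variance / 2) ^ h / h!`. -/
theorem result (K : Type) [Field K] [NumberField K] (g n d D h l s b : ℕ) (ω : Fin g → 𝓞 K)
    (hω : (1 : 𝓞 K) ∈ Submodule.span ℤ (Set.range ω)) (e : Fin D ≃ Exponent n d) (hn : Odd n) (hd : 2 ≤ d) (hh : 1 ≤ h)
    (hl : 2 * h * l ≤ d) (hs : 1 ≤ s) (hb : 2 ≤ b) (δ : ℝ) (hδ : 0 < δ) (A B : ℕ) (Q : Finset ((Fin l → ℝ) × ℝ)) :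
    ∃ c : ℝ, 0 < c ∧ ∃ y₀ : ℕ, ∀ (L r : Fin (D * g) → ℕ) (y : ℕ), (∀ j, 2 * r j ≤ L j) → y₀ ≤ y →
    ∀ N' : Fin (D * g) → ℕ, (∀ j, N' j < b ^ L j) →
    ∀ f : Fin (D * g) → ℕ → ℕ, (∀ j t, f j t < b ∧ f j t ≠ digit b t (N' j)) →
    ∀ W : ℕ → Set ((j : ℕ) → Tuple K s j → ℝ), (∀ x, (W x).Finite ∧ (W x).ncard ≤ x ^ B) → (∀ x, ∀ w ∈ W x, ∀ j φ, |w j φ| ≤ 1) →
      (exceptions b L r N' f
        (fun m => ∀ x : ℕ, y ≤ x → (∀ j, (x : ℝ) ≤ Real.exp (c * r j)) → Law ω e h s δ Q (W x) x m) : ℝ) ≤
        1 / (y : ℝ) ^ A * ∏ j, ((L j).choose (r j) : ℝ) := by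
  have hN : 2 ≤ n + 1 := by have := hn.pos; omega
  have hg : 0 < g := by
    rcases Nat.eq_zero_or_pos g with h0 | h0
    · subst h0
      rw [Set.range_eq_empty, Submodule.span_empty, Submodule.mem_bot] at hω
      exact absurd hω one_ne_zero
    · exact h0
  have hD : 0 < D := Pool.Agent.N842.HS.D_pos (N := n + 1) e (by omega)
  obtain ⟨c, hc, y₀, h1⟩ := Pool.Agent.N842.HS.genEW (R := 𝓞 K) b g D s ω hω hb (Nat.mul_pos hD hg) hs δ hδ A B Q
    (fun θ p _ u => Pool.Agent.N842.HS.Tk (N := n + 1) e p θ.1 θ.2 u) (fun θ => Pool.Agent.N842.HS.mnk (n + 1) θ.1 θ.2)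
    (fun θ => Pool.Agent.N842.HS.errk h θ.1)
    (fun θ => ⟨Pool.Agent.N842.HS.mnk_le _ _ _, fun p _ u => Pool.Agent.N842.HS.Tk_le _ _ _ _ _⟩)
    (fun θ => Pool.Agent.N842.HS.chr (N := n + 1) e hN hd h l hh hl θ.1 θ.2)
  refine ⟨c, hc, y₀, fun L r y hrL hy N' hN' f hf W hW hW1 => ?_⟩
  rw [exc_eq]
  refine h1 L r y hrL hy N' hN' f hf W hW hW1 _ fun m hm x hyx hxr w hw θ hθ => ?_
  have h2 := hm x hyx hxr w hw θ hθ
  simp only [test_eq, main_eq hn]
  exact h2

end Pool.Agent.Results.MP_4c4ce6_nt.HypersurfacesNumberFields
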