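import Pool.Agent.N842.HS.MomR

/-!
# The joint moments of the traces of the powers of the Frobenius automorphisms for almost all hypersurfaces of odd dimension over
number fields

Let `K` be a number field and `ω_0, ..., ω_(g-1)` elements of its ring of integers such that `1` is a linear combination of them with
integral coefficients, for instance an integral basis.  The hypersurface `X` of degree `d` in the projective space of dimension `n + 1`
over `K` is the projective closure of `∑ x_i ^ d + ∑ c_α x ^ α = 0`, where `x = (x_0, ..., x_n)` and `α` runs through the exponents of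
all monomials of degree less than `d`; the coefficients are `c_α = ∑ m_(α,j) ω_j` with integers `m_(α,j) ≥ 0`.

The prime ideals of `K` of degree one above the prime number `p` correspond to the homomorphisms `φ : 𝓞 K → F_p`.

Let `t_k` be the trace of the `k`-th power of the normalised Frobenius automorphism on the primitive part of `H ^ n(X)`.  A monomial
`Y = ∏ t_k ^ (ρ k)` has the weight `∑ k (ρ k)`.  We determine the means of the monomials `Y` of weight at most `d / q`, where
the values with `|Y| > p ^ (1 / (2 (q - 1)))` are replaced by `0`; by Deligne's theorem `|t_k|` is at most the dimension of the primitive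
part, so that there are such values only for the prime numbers `p` less than a number which depends only on `n`, `d` and `q`.
-/

set_option autoImplicit false

namespace Pool.Agent.Results.MP_4c4ce6_nt.OddHypersurfaceMoments

open Finset NumberField ProbabilityTheory

/-- The exponents of the monomials of degree less than `d` in the variables `x_0, ..., x_n`. -/
abbrev Exponent (n d : ℕ) : Type := {α : Fin (n + 1) → Fin d // ∑ i, (α i : ℕ) < d}

/-- The coefficients `c_i = ∑ m_(i,j) ω_j`. -/
def coeff {R : Type} [CommRing R] {g D : ℕ} (ω : Fin g → R) (m : Fin (D * g) → ℕ) (i : Fin D) : R :=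
  ∑ j, (m (finProdFinEquiv (i, j)) : R) * ω j

/-- The polynomial `∑ x_i ^ d + ∑ u_k x ^ (e k)` over the ring `R`, where `e` is an enumeration of the exponents. -/
noncomputable def poly {R : Type} [CommRing R] {n d D : ℕ} (e : Fin D ≃ Exponent n d) (u : Fin D → R) : MvPolynomial (Fin (n + 1)) R :=
  ∑ i, MvPolynomial.X i ^ d + ∑ k, MvPolynomial.C (u k) * ∏ i, MvPolynomial.X i ^ ((e k).1 i : ℕ)

/-- The number of the points over the field with `q = p ^ k` elements of the hypersurface over the field with `p` elements with the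
coefficients `u`: the number of the zeros of the polynomial (these are the points outside the hyperplane at infinity), and the number
of the nonzero solutions of `∑ x_i ^ d = 0` divided by `q - 1` (these are the points at infinity). -/
noncomputable def points {n d D : ℕ} (e : Fin D ≃ Exponent n d) (k p : ℕ) [Fact p.Prime] (u : Fin D → ZMod p) : ℝ :=
  (Nat.card {x : Fin (n + 1) → GaloisField p k // MvPolynomial.eval x (poly e (fun i => algebraMap (ZMod p) (GaloisField p k) (u i))) = 0} : ℝ) +
    ((Nat.card {x : Fin (n + 1) → GaloisField p k // ∑ i, x i ^ d = 0} : ℝ) - 1) / ((p : ℝ) ^ k - 1)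

/-- The trace of the `k`-th power of the normalised Frobenius automorphism (that is, the Frobenius automorphism divided by
`p ^ (n / 2)`) on the primitive part of the cohomology `H ^ n` of this hypersurface: the number
`(-1) ^ n (#X(F_q) - (1 + q + ... + q ^ n)) / q ^ (n / 2)`, where `q = p ^ k`. -/
noncomputable def trace {n d D : ℕ} (e : Fin D ≃ Exponent n d) (k p : ℕ) [Fact p.Prime] (u : Fin D → ZMod p) : ℝ :=
  (-1) ^ n * ((points e k p u - ∑ i ∈ range (n + 1), ((p : ℝ) ^ k) ^ i) / (Real.sqrt p ^ k) ^ n)

/-- `p` does not divide `d`, and the polynomial and its partial derivatives do not have a common zero over the algebraic closure of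
the field with `p` elements, so that the hypersurface is smooth. -/
def Smooth {n d D : ℕ} (e : Fin D ≃ Exponent n d) (p : ℕ) [Fact p.Prime] (u : Fin D → ZMod p) : Prop :=
  ¬ p ∣ d ∧ ¬ ∃ x : Fin (n + 1) → AlgebraicClosure (ZMod p),
    MvPolynomial.eval x (poly e (fun i => algebraMap (ZMod p) (AlgebraicClosure (ZMod p)) (u i))) = 0 ∧
    ∀ i, MvPolynomial.eval x (MvPolynomial.pderiv i (poly e (fun i => algebraMap (ZMod p) (AlgebraicClosure (ZMod p)) (u i)))) = 0

/-- The monomial `Y = ∏ t_k ^ (ρ k)` in the traces `t_k` with the numbers `k` (`1 ≤ k ≤ d`; the index of `ρ` is `k - 1`). -/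
noncomputable def monomial {n d D : ℕ} (e : Fin D ≃ Exponent n d) (ρ : Fin d → ℕ) (p : ℕ) [Fact p.Prime] (u : Fin D → ZMod p) : ℝ :=
  ∏ k : Fin d, trace e (k + 1) p u ^ ρ k

open Classical in
/-- The monomial `Y` if the hypersurface is smooth and `|Y| ≤ p ^ (1 / (2 (q - 1)))`, and `0` otherwise. -/
noncomputable def truncated {n d D : ℕ} (e : Fin D ≃ Exponent n d) (q : ℕ) (ρ : Fin d → ℕ) (p : ℕ) [Fact p.Prime] (u : Fin D → ZMod p) : ℝ :=
  if Smooth e p u ∧ |monomial e ρ p u| ≤ (p : ℝ) ^ (1 / (2 * ((q : ℝ) - 1))) then monomial e ρ p u else 0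

/-- The `s`-tuples of prime ideals of degree one of `K`, the `i`-th of them above the prime number `p_(j + i)`, where `p_0 = 2, p_1, ...`
are the prime numbers: the prime ideals of degree one above `p` are given by the homomorphisms `φ : 𝓞 K → F_p`. -/
abbrev Tuple (K : Type) [Field K] [NumberField K] (s j : ℕ) : Type := (i : Fin s) → (𝓞 K →+* ZMod (Nat.nth Nat.Prime (j + i)))

open Classical in
/-- The `r`-th moment of a normal variable with the mean `-1` if `k` is even and `0` if `k` is odd, and the variance `k`. -/
noncomputable def moment (k r : ℕ) : ℝ := ∫ x, x ^ r ∂(gaussianReal (if Even k then -1 else 0) (k : NNReal))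

/-- For all weights `w` in `W` and all `ρ_0, ..., ρ_(s-1)` of weight at most `d / q`: the weighted sum, over all the `s`-tuples of prime
ideals of degree one above `s` consecutive prime numbers `p_j, ..., p_(j+s-1)`, `j < x`, of the products of the truncated monomials with
the exponents `ρ_i` of the reductions of `X` differs from the same sum with the moments of independent normal variables at most by
`(max 1 (∑ w ^ 2)) ^ (1 / 2) x ^ (s / (2 (q - 1)) + δ)`. -/
def Moments {K : Type} [Field K] [NumberField K] {g n d D : ℕ} (ω : Fin g → 𝓞 K) (e : Fin D ≃ Exponent n d) (q s : ℕ) (δ : ℝ)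
    (W : Set ((j : ℕ) → Tuple K s j → ℝ)) (x : ℕ) (m : Fin (D * g) → ℕ) : Prop :=
  ∀ w ∈ W, ∀ ρ : Fin s → Fin d → ℕ, (∀ i, q * ∑ k : Fin d, (k + 1 : ℕ) * ρ i k ≤ d) →
    |∑ j ∈ range x, ∑ᶠ φ : Tuple K s j,
        w j φ * (∏ i : Fin s, truncated e q (ρ i) (Nat.nth Nat.Prime (j + i)) (fun k => φ i (coeff ω m k)) -
          ∏ i : Fin s, ∏ k : Fin d, moment (k + 1) (ρ i k))| ≤
      Real.sqrt (max 1 (∑ j ∈ range x, ∑ᶠ φ : Tuple K s j, w j φ ^ 2)) * (x : ℝ) ^ ((s : ℝ) / (2 * ((q : ℝ) - 1)) + δ)

/-- The digit number `i` (counted from the right, beginning with `0`) of `n` in base `b`. -/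
def digit (b i n : ℕ) : ℕ := n / b ^ i % b

/-- The number which arises from the number `N` with at most `L` digits in base `b`, if for every `i ∈ S`
the digit number `i` is replaced by `f i`. -/
def change (b L N : ℕ) (f : ℕ → ℕ) (S : Finset ℕ) : ℕ :=
  ∑ i ∈ range L, (if i ∈ S then f i else digit b i N) * b ^ i

open Classical in
/-- The number of the choices of `r j` of `L j` positions for all `j` for which the tuple of the numbers obtained by
changing the digits of the `N j` at the chosen positions (according to `f j`) does not have the property `E`. -/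
noncomputable def exceptions {d : ℕ} (b : ℕ) (L r N : Fin d → ℕ) (f : Fin d → ℕ → ℕ) (E : (Fin d → ℕ) → Prop) : ℕ :=
  ((Fintype.piFinset (fun j => powersetCard (r j) (range (L j)))).filter
    (fun S => ¬ E (fun j => change b (L j) (N j) (f j) (S j)))).card

lemma exc_eq {d : ℕ} (b : ℕ) (L r N : Fin d → ℕ) (f : Fin d → ℕ → ℕ) (E : (Fin d → ℕ) → Prop) :
    exceptions b L r N f E = Pool.Agent.Y57.FD.exceptions b L r N f E := rfl

section
variable {n d D : ℕ} (e : Fin D ≃ Exponent n d)

lemma eval_poly (p : ℕ) [Fact p.Prime] (k : ℕ) (u : Fin D → ZMod p) (x : Fin (n + 1) → GaloisField p k) :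
    MvPolynomial.eval x (poly e (fun i => algebraMap (ZMod p) (GaloisField p k) (u i))) =
      MvPolynomial.aeval x (Pool.Agent.N842.HS.fpl p (N := n + 1) e u) := by
  unfold poly Pool.Agent.N842.HS.fpl Pool.Agent.N842.HS.lowp
  rw [map_add, map_add, map_sum, map_sum, map_sum, map_sum]
  congr 1
  · refine sum_congr rfl fun i _ => ?_
    rw [map_pow, map_pow, MvPolynomial.eval_X, MvPolynomial.aeval_X]
  · refine sum_congr rfl fun k _ => ?_
    rw [map_mul, MvPolynomial.eval_C, map_prod, MvPolynomial.aeval_monomial, Finsupp.prod_fintype _ _ (fun _ => pow_zero _)]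
    congr 1
    refine prod_congr rfl fun i _ => ?_
    rw [map_pow, MvPolynomial.eval_X]
    rfl

lemma smooth_iff (p : ℕ) [Fact p.Prime] (u : Fin D → ZMod p) :
    Smooth e p u ↔ ¬ p ∣ d ∧ ¬ Pool.Agent.N842.HS.Sing (N := n + 1) e p u := by
  unfold Smooth Pool.Agent.N842.HS.Sing poly Pool.Agent.N842.HS.PF
  exact Iff.rfl

lemma trace_eq (p : ℕ) [Fact p.Prime] (k : ℕ) (u : Fin D → ZMod p) :
    trace e k p u = Pool.Agent.N842.HS.trk (N := n + 1) e p k u := by
  unfold trace Pool.Agent.N842.HS.trk points Pool.Agent.N842.HS.infp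
  simp only [eval_poly]
  rfl

lemma truncated_eq (q : ℕ) (ρ : Fin d → ℕ) (p : ℕ) [Fact p.Prime] (u : Fin D → ZMod p) :
    truncated e q ρ p u = Pool.Agent.N842.HS.Ft (N := n + 1) e ρ (1 / (2 * (q - 1))) p u := by
  classical
  have h1 : monomial e ρ p u = Pool.Agent.N842.HS.Yk (N := n + 1) e ρ p u := by
    unfold monomial Pool.Agent.N842.HS.Yk
    refine prod_congr rfl fun k _ => ?_
    rw [trace_eq]
  unfold truncated Pool.Agent.N842.HS.Ft
  rw [h1]
  exact if_congr (by rw [smooth_iff, and_assoc]) rfl rfl

lemma moment_eq (hn : Odd n) (k r : ℕ) : moment k r = Pool.Agent.N842.HS.muk (n + 1) k r := by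
  classical
  rw [Pool.Agent.N842.HS.muk_gauss, Nat.add_sub_cancel, hn.neg_one_pow]
  unfold moment Pool.Agent.N842.HS.etak
  split_ifs <;> norm_num

end

/-- Let `K` be a number field, `ω_0, ..., ω_(g-1)` in `𝓞 K` such that `1` is in the group generated by them, `n` odd, and let a degree
`d ≥ 2`, an even number `q ≥ 2`, `s ≥ 1`, a base `b ≥ 2`, `δ > 0` and integers `A, B ≥ 0` be given.  There are `c > 0` and `y₀` such that
for all integers `r j`, `L j` (`j < D g`, where `D` is the number of the monomials of degree less than `d` in `n + 1` variables), `y`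
with `2 r j ≤ L j` and `y ≥ y₀` the following holds.

Let `0 ≤ N' j < b ^ L j` be arbitrary integers, prescribe for every position `t` a digit `f j t` different from the digit of
`N' j` in base `b`, and let for every `x` an arbitrary set `W x` of at most `x ^ B` weights with values in `[-1, 1]`, defined on the
`s`-tuples of prime ideals of degree one of `K` above `s` consecutive prime numbers, be given.  If one chooses `r j` of the `L j`
positions and replaces the digits of `N' j` at these positions, then for all but at most a proportion `1 / y ^ A` of the choices the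
hypersurface `X` over `K` of dimension `n` with the numbers `m j` obtained has the following property: for all integers `x` with
`y ≤ x ≤ exp (c r j)` for all `j` all the joint moments of weight at most `d / q` of the traces of the powers of the normalised
Frobenius automorphisms on the primitive part of `H ^ n(X)` at these `s`-tuples of prime ideals have, in the weighted mean over the
first `x` prime numbers, the values which correspond to independent normal variables with the variances `k` and the means `-1` for
even `k` and `0` for odd `k`, up to the error in the property `Moments`. -/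
theorem result (K : Type) [Field K] [NumberField K] (g n d D q s b : ℕ) (ω : Fin g → 𝓞 K)
    (hω : (1 : 𝓞 K) ∈ Submodule.span ℤ (Set.range ω)) (e : Fin D ≃ Exponent n d) (hn : Odd n) (hd : 2 ≤ d) (hq : 2 ≤ q)
    (hq2 : Even q) (hs : 1 ≤ s) (hb : 2 ≤ b) (δ : ℝ) (hδ : 0 < δ) (A B : ℕ) :
    ∃ c : ℝ, 0 < c ∧ ∃ y₀ : ℕ, ∀ (L r : Fin (D * g) → ℕ) (y : ℕ), (∀ j, 2 * r j ≤ L j) → y₀ ≤ y →
    ∀ N' : Fin (D * g) → ℕ, (∀ j, N' j < b ^ L j) →
    ∀ f : Fin (D * g) → ℕ → ℕ, (∀ j t, f j t < b ∧ f j t ≠ digit b t (N' j)) →
    ∀ W : ℕ → Set ((j : ℕ) → Tuple K s j → ℝ), (∀ x, (W x).Finite ∧ (W x).ncard ≤ x ^ B) → (∀ x, ∀ w ∈ W x, ∀ j φ, |w j φ| ≤ 1) →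
      (exceptions b L r N' f
        (fun m => ∀ x : ℕ, y ≤ x → (∀ j, (x : ℝ) ≤ Real.exp (c * r j)) → Moments ω e q s δ (W x) x m) : ℝ) ≤
        1 / (y : ℝ) ^ A * ∏ j, ((L j).choose (r j) : ℝ) := by
  have hN : 2 ≤ n + 1 := by have := hn.pos; omega
  have hg : 0 < g := by
    rcases Nat.eq_zero_or_pos g with h0 | h0
    · subst h0
      rw [Set.range_eq_empty, Submodule.span_empty, Submodule.mem_bot] at hω
      exact absurd hω one_ne_zero
    · exact h0
  obtain ⟨c, hc, y₀, h1⟩ := Pool.Agent.N842.HS.momR (N := n + 1) e hN hd b g s q ω hω hg hb hs hq hq2 δ hδ A B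
  refine ⟨c, hc, y₀, fun L r y hrL hy N' hN' f hf W hW hW1 => ?_⟩
  rw [exc_eq]
  refine h1 L r y hrL hy N' hN' f hf W hW hW1 _ fun m hm x hyx hxr w hw ρ hρ => ?_
  have h2 := hm x hyx hxr w hw ρ hρ
  simp only [truncated_eq, moment_eq hn]
  exact h2

end Pool.Agent.Results.MP_4c4ce6_nt.OddHypersurfaceMoments
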