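import Pool.Agent.N842.HS.Sup

/-!
# The joint moments of the traces of the Frobenius automorphisms on the odd cohomology, of degree `i ≥ 3`, of products of
almost all superelliptic curves over number fields

Let `K` be a number field and `ω_0, ..., ω_(g-1)` elements of its ring of integers such that `1` is a linear combination of them with
integral coefficients, for instance an integral basis.  The variety is the product `X = C_0 × ... × C_(N-1)` of `N` superelliptic
curves `C_c : Y ^ l = f_c(X)` over `K`, `l` a prime number (for `l = 2` hyperelliptic curves of genus `(D - 1) / 2`), where the degree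
`D` of the monic polynomials `f_c` is prime to `l`; the coefficients of the `f_c` are linear combinations of the `ω_j` with integral
coefficients which arise from arbitrary integers by changing a few digits.  By the formula of Kuenneth the cohomology `H ^ i(X)` is
the direct sum, over all sets `S` of curves, of `multiplicity N i S` copies of twists of the tensor products of the `H ^ 1(C_c)`, `c ∈ S`.

The prime ideals of `K` of degree one above the prime number `p` correspond to the homomorphisms `φ : 𝓞 K → F_p`.
-/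

set_option autoImplicit false

namespace Pool.Agent.Results.MP_4c4ce6_nt.ProductsOverNumberFields

open Finset NumberField

/-- The elements `∑ m_(i,j) ω_j` of `𝓞 K`. -/
def coeff {R : Type} [CommRing R] {g D : ℕ} (ω : Fin g → R) (m : Fin (D * g) → ℕ) (i : Fin D) : R :=
  ∑ j, (m (finProdFinEquiv (i, j)) : R) * ω j

/-- The number of the solutions of `Y ^ l = X ^ D + u (D - 1) X ^ (D - 1) + ... + u 0` in the field with `p ^ k` elements. -/
noncomputable def points (l D k p : ℕ) [Fact p.Prime] (u : Fin D → ZMod p) : ℕ :=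
  Nat.card {P : GaloisField p k × GaloisField p k // P.2 ^ l = P.1 ^ D + ∑ i, algebraMap (ZMod p) (GaloisField p k) (u i) * P.1 ^ (i : ℕ)}

/-- `p ≠ l` and the polynomial `X ^ D + u (D - 1) X ^ (D - 1) + ... + u 0` over the field with `p` elements is separable, so that the
curve `C : Y ^ l = X ^ D + u (D - 1) X ^ (D - 1) + ... + u 0` is smooth. -/
def Smooth (l D p : ℕ) [Fact p.Prime] (u : Fin D → ZMod p) : Prop :=
  p ≠ l ∧ (Polynomial.X ^ D + ∑ i, Polynomial.C (u i) * Polynomial.X ^ (i : ℕ)).Separable

/-- The number `(#C(F_q) - (q + 1)) / q ^ (1 / 2)`, where `q = p ^ k` (there is one point at infinity), that is, `-1` times the trace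
of the `k`-th power of the normalised Frobenius automorphism on `H ^ 1(C)`. -/
noncomputable def a (l D k p : ℕ) [Fact p.Prime] (u : Fin D → ZMod p) : ℝ :=
  (((points l D k p u : ℝ) + 1) - ((p : ℝ) ^ k + 1)) / Real.sqrt p ^ k

/-- The number of the ways to choose one of the degrees `0` and `2` for every curve which is not in `S` in such a way that the sum
of these degrees and of the degrees `1` for the curves in `S` is `i`. -/
def multiplicity (N i : ℕ) (S : Finset (Fin N)) : ℕ :=
  if S.card ≤ i ∧ Even (i - S.card) then (N - S.card).choose ((i - S.card) / 2) else 0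

open Classical in
/-- The trace of the `k`-th power of the normalised Frobenius automorphism (that is, the Frobenius automorphism divided by
`p ^ (i / 2)`) on `H ^ i(X)`, where `X` is the product of the curves with the coefficients `u c`, `c < N`, over the field with `p`
elements, computed by means of the formula of Kuenneth; `0` if one of the curves is not smooth. -/
noncomputable def trace (l D N i k p : ℕ) [Fact p.Prime] (u : Fin N → Fin D → ZMod p) : ℝ :=
  if ∀ c, Smooth l D p (u c) then ∑ S : Finset (Fin N), (multiplicity N i S : ℝ) * ∏ c ∈ S, -a l D k p (u c) else 0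

/-- The product of the powers of the traces of the `k`-th powers (`1 ≤ k ≤ D`, the index is `k - 1`) with the exponents `q k`, where
the coefficients of the curve number `c` are `u (c D), ..., u (c D + D - 1)`. -/
noncomputable def monomial (l D N i p : ℕ) [Fact p.Prime] (q : Fin D → ℕ) (u : Fin (N * D) → ZMod p) : ℝ :=
  ∏ k : Fin D, trace l D N i (k + 1) p (fun c j => u (finProdFinEquiv (c, j))) ^ q k

/-- The `s`-tuples of prime ideals of degree one of `K`, the `i`-th of them above the prime number `p_(j + i)`, where `p_0 = 2, p_1, ...`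
are the prime numbers: the prime ideals of degree one above `p` are given by the homomorphisms `φ : 𝓞 K → F_p`. -/
abbrev Tuple (K : Type) [Field K] [NumberField K] (s j : ℕ) : Type := (i : Fin s) → (𝓞 K →+* ZMod (Nat.nth Nat.Prime (j + i)))

/-- `k (l - 1)` if the field with `p ^ k` elements contains the roots of unity of order `l`, and `0` otherwise. -/
def variance (l k p : ℕ) : ℕ := k * (if l ∣ p ^ k - 1 then l - 1 else 0)

open Classical in
/-- `l - 1` if `k` is even and `p ^ (k / 2) ≡ - 1 (mod l)`, and `0` otherwise. -/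
noncomputable def shift (l k p : ℕ) : ℕ := if Even k ∧ l ∣ p ^ (k / 2) + 1 then l - 1 else 0

/-- The `q`-th moment of the random variable `∑ S, multiplicity N i S * ∏ c ∈ S, -x c`, where the `x c` are independent normal
variables with the mean `shift l k p` and the variance `variance l k p`. -/
noncomputable def moment (l N i k p q : ℕ) : ℝ :=
  ∫ x : Fin N → ℝ, (∑ S : Finset (Fin N), (multiplicity N i S : ℝ) * ∏ c ∈ S, -x c) ^ q
    ∂(MeasureTheory.Measure.pi (fun _ => ProbabilityTheory.gaussianReal (shift l k p : ℝ) (variance l k p : NNReal)))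

/-- For all weights `w` in `W` and all exponents `q e k` (`e < s`, `1 ≤ k ≤ D`; here the index is `k - 1`) of weight
`∑ k (q e k) ≤ D` for every `e`: the weighted sum, over all the `s`-tuples of prime ideals of degree one above `s` consecutive prime
numbers `p_j, ..., p_(j+s-1)`, `j < x`, of the products of the monomials with the exponents `q e` of the reductions of `X` differs
from the same sum with the numbers `moment l N i k p_(j + e) (q e k)` at most by `(max 1 (∑ w ^ 2)) ^ (1 / 2) x ^ δ`. -/
def Moments {K : Type} [Field K] [NumberField K] {g : ℕ} (ω : Fin g → 𝓞 K) (l D N i s : ℕ) (δ : ℝ)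
    (W : Set ((j : ℕ) → Tuple K s j → ℝ)) (x : ℕ) (m : Fin (N * D * g) → ℕ) : Prop :=
  ∀ w ∈ W, ∀ q : Fin s → Fin D → ℕ, (∀ e, ∑ k : Fin D, (k + 1 : ℕ) * q e k ≤ D) →
    |∑ j ∈ range x, ∑ᶠ φ : Tuple K s j,
        w j φ * (∏ e : Fin s, monomial l D N i (Nat.nth Nat.Prime (j + e)) (q e) (fun t => φ e (coeff ω m t)) -
          ∏ e : Fin s, ∏ k : Fin D, moment l N i (k + 1) (Nat.nth Nat.Prime (j + e)) (q e k))| ≤
      Real.sqrt (max 1 (∑ j ∈ range x, ∑ᶠ φ : Tuple K s j, w j φ ^ 2)) * (x : ℝ) ^ δ

/-- The digit number `i` (counted from the right, beginning with `0`) of `n` in base `b`. -/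
def digit (b i n : ℕ) : ℕ := n / b ^ i % b

/-- The number which arises from the number `N` with at most `L` digits in base `b`, if for every `i ∈ S`
the digit number `i` is replaced by `f i`. -/
def change (b L N : ℕ) (f : ℕ → ℕ) (S : Finset ℕ) : ℕ :=
  ∑ i ∈ range L, (if i ∈ S then f i else digit b i N) * b ^ i

open Classical in
/-- The number of the choices of `r j` of `L j` positions for all `j` for which the tuple of the numbers obtained by
changing the digits of the `N j` at the chosen positions (according to `f j`) does not have the property `E`. -/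
noncomputable def exceptions {d : ℕ} (b : ℕ) (L r N : Fin d → ℕ) (f : Fin d → ℕ → ℕ) (E : (Fin d → ℕ) → Prop) : ℕ :=
  ((Fintype.piFinset (fun j => powersetCard (r j) (range (L j)))).filter
    (fun S => ¬ E (fun j => change b (L j) (N j) (f j) (S j)))).card

lemma exc_eq {d : ℕ} (b : ℕ) (L r N : Fin d → ℕ) (f : Fin d → ℕ → ℕ) (E : (Fin d → ℕ) → Prop) :
    exceptions b L r N f E = Pool.Agent.Y57.FD.exceptions b L r N f E := rfl

lemma fp_eq (D p : ℕ) [Fact p.Prime] (u : Fin D → ZMod p) :
    Pool.Agent.N842.ST.fp p (fun i => (((u i).val : ℕ) : ZMod p)) = Polynomial.X ^ D + ∑ i, Polynomial.C (u i) * Polynomial.X ^ (i : ℕ) := by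
  simp only [ZMod.natCast_zmod_val]
  rfl

lemma smooth_eq (l D p : ℕ) [Fact p.Prime] (u : Fin D → ZMod p) : Smooth l D p u ↔ Pool.Agent.N842.ST.Good l D p (fun i => (u i).val) := by
  have h : Pool.Agent.N842.ST.Good l D p (fun i => (u i).val) ↔
      p ≠ l ∧ (Pool.Agent.N842.ST.fp p (fun i => (((u i).val : ℕ) : ZMod p))).Separable := Iff.rfl
  rw [h, fp_eq]
  rfl

lemma a_eq (l D k : ℕ) (hk : k ≠ 0) (p : ℕ) [hp : Fact p.Prime] (u : Fin D → ZMod p) (hu : Smooth l D p u) :
    a l D k p u = Pool.Agent.N842.ST.A l D k p (fun i => (u i).val) := by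
  classical
  unfold a Pool.Agent.N842.ST.A
  have h3 : (Pool.Agent.N842.ST.fp p (fun i => (((u i).val : ℕ) : ZMod p))).Separable := by
    rw [fp_eq]
    exact hu.2
  rw [dif_pos ⟨hp.out, hu.1⟩, if_pos h3]
  unfold points
  rw [Pool.Agent.N842.HS.card_pointsu, Pool.Agent.N842.ST.card_points l p k hk]
  congr 1
  ring

lemma trace_eq (l D N i k : ℕ) (hk : k ≠ 0) (p : ℕ) [Fact p.Prime] (u : Fin N → Fin D → ZMod p) :
    trace l D N i k p u = Pool.Agent.N842.ST.tc l D N k p (fun S => (multiplicity N i S : ℝ)) (fun c i => (u c i).val) := by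
  classical
  unfold trace Pool.Agent.N842.ST.tc
  by_cases h : ∀ c, Smooth l D p (u c)
  · rw [if_pos h]
    have h1 : ∏ c, Pool.Agent.N842.ST.ind l D p (fun i => (u c i).val) = 1 := by
      apply prod_eq_one
      intro c _
      unfold Pool.Agent.N842.ST.ind
      exact if_pos ((smooth_eq l D p (u c)).1 (h c))
    rw [h1, one_mul]
    refine sum_congr rfl fun S _ => ?_
    congr 1
    refine prod_congr rfl fun c _ => ?_
    rw [a_eq l D k hk p (u c) (h c)]
  · rw [if_neg h]
    push Not at h
    obtain ⟨c, hc⟩ := h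
    have h1 : ∏ c, Pool.Agent.N842.ST.ind l D p (fun i => (u c i).val) = 0 := by
      apply prod_eq_zero (mem_univ c)
      unfold Pool.Agent.N842.ST.ind
      exact if_neg (fun h' => hc ((smooth_eq l D p (u c)).2 h'))
    rw [h1, zero_mul]

lemma monomial_eq (l D N i p : ℕ) [Fact p.Prime] (q : Fin D → ℕ) (u : Fin (N * D) → ZMod p) :
    monomial l D N i p q u =
      Pool.Agent.N842.HS.lift (fun p m => Pool.Agent.N842.ST.TP l D N p finProdFinEquiv (fun S => (multiplicity N i S : ℝ)) q m) p u := by
  unfold monomial Pool.Agent.N842.HS.lift Pool.Agent.N842.ST.TP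
  refine prod_congr rfl fun k _ => ?_
  rw [trace_eq l D N i (k + 1) (by omega)]
  rfl

lemma moment_eq (l : ℕ) (hl : l.Prime) (N i k p q : ℕ) : moment l N i k p q =
    Pool.Agent.N842.ST.mk l N k p (fun S => (multiplicity N i S : ℝ)) q := by
  rw [Pool.Agent.N842.ST.mk_gauss l hl]
  rfl

/-- Let `K` be a number field, `ω_0, ..., ω_(g-1)` in `𝓞 K` such that `1` is in the group generated by them, and let a prime number
`l`, a degree `D` prime to `l`, integers `N, s ≥ 1`, an odd number `i ≥ 3`, a base `b ≥ 2`, `δ > 0` and integers `A, B ≥ 0` be given.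
There are `c > 0` and `y₀` such that for all integers `r j`, `L j` (`j < N D g`), `y` with `2 r j ≤ L j` and `y ≥ y₀` the
following holds.

Let `0 ≤ N' j < b ^ L j` be arbitrary integers, prescribe for every position `t` a digit `f j t` different from the digit of
`N' j` in base `b`, and let for every `x` an arbitrary set `W x` of at most `x ^ B` weights with values in `[-1, 1]`, defined on the
`s`-tuples of prime ideals of degree one of `K` above `s` consecutive prime numbers, be given.  If one chooses `r j` of the `L j`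
positions and replaces the digits of `N' j` at these positions, then for all but at most a proportion `1 / y ^ A` of the choices the
product `X` of the `N` curves over `K` given by the numbers `m j` obtained has the following property: for all integers `x` with
`y ≤ x ≤ exp (c r j)` for all `j` and all weights `w ∈ W x`, all the joint moments of weight at most `D` of the traces of the powers of
the normalised Frobenius automorphisms on `H ^ i(X)` at these `s`-tuples of prime ideals have, in the weighted mean over the first `x`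
prime numbers, the values `moment`, up to an error `(max 1 (∑ w ^ 2)) ^ (1 / 2) x ^ δ`. -/
theorem result (K : Type) [Field K] [NumberField K] (g l D N i s b : ℕ) (ω : Fin g → 𝓞 K)
    (hω : (1 : 𝓞 K) ∈ Submodule.span ℤ (Set.range ω)) (hl : l.Prime) (hD : Nat.Coprime D l) (hN : 1 ≤ N) (_hi : Odd i ∧ 3 ≤ i)
    (hs : 1 ≤ s) (hb : 2 ≤ b) (δ : ℝ) (hδ : 0 < δ) (A B : ℕ) :
    ∃ c : ℝ, 0 < c ∧ ∃ y₀ : ℕ, ∀ (L r : Fin (N * D * g) → ℕ) (y : ℕ), (∀ j, 2 * r j ≤ L j) → y₀ ≤ y →
    ∀ N' : Fin (N * D * g) → ℕ, (∀ j, N' j < b ^ L j) →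
    ∀ f : Fin (N * D * g) → ℕ → ℕ, (∀ j t, f j t < b ∧ f j t ≠ digit b t (N' j)) →
    ∀ W : ℕ → Set ((j : ℕ) → Tuple K s j → ℝ), (∀ x, (W x).Finite ∧ (W x).ncard ≤ x ^ B) → (∀ x, ∀ w ∈ W x, ∀ j φ, |w j φ| ≤ 1) →
      (exceptions b L r N' f
        (fun m => ∀ x : ℕ, y ≤ x → (∀ j, (x : ℝ) ≤ Real.exp (c * r j)) → Moments ω l D N i s δ (W x) x m) : ℝ) ≤
        1 / (y : ℝ) ^ A * ∏ j, ((L j).choose (r j) : ℝ) := by
  classical
  have hg : 0 < g := by
    rcases Nat.eq_zero_or_pos g with h0 | h0
    · subst h0
      rw [Set.range_eq_empty, Submodule.span_empty, Submodule.mem_bot] at hω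
      exact absurd hω one_ne_zero
    · exact h0
  have hD0 : D ≠ 0 := by
    rintro rfl
    rw [Nat.coprime_zero_left] at hD
    exact hl.one_lt.ne' hD
  have hd : 1 ≤ N * D * g := Nat.one_le_iff_ne_zero.2 (Nat.mul_ne_zero (Nat.mul_ne_zero (by omega) hD0) (by omega))
  -- the admissible exponents
  obtain ⟨Q, hQ⟩ : ∃ Q : Finset (Fin D → ℕ), Q = (Fintype.piFinset (fun _ : Fin D => range (D + 1))).filter
    (fun q => ∑ k : Fin D, (k + 1 : ℕ) * q k ≤ D) := ⟨_, rfl⟩
  have hQm : ∀ q : Fin D → ℕ, q ∈ Q ↔ ∑ k : Fin D, (k + 1 : ℕ) * q k ≤ D := by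
    intro q
    rw [hQ, mem_filter]
    constructor
    · exact fun h => h.2
    · intro h
      refine ⟨?_, h⟩
      rw [Fintype.mem_piFinset]
      intro k
      rw [mem_range]
      have h2 : (k + 1 : ℕ) * q k ≤ ∑ k : Fin D, (k + 1 : ℕ) * q k :=
        single_le_sum (f := fun k : Fin D => (k + 1 : ℕ) * q k) (fun k _ => Nat.zero_le _) (mem_univ k)
      have h3 : q k ≤ (k + 1 : ℕ) * q k := Nat.le_mul_of_pos_left _ (by omega)
      omega
  obtain ⟨c, hc, y₀, h⟩ := Pool.Agent.N842.HS.genL (R := 𝓞 K) b g (N * D) s ω hω hb hd hs δ hδ A B Q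
    (fun q p m => Pool.Agent.N842.ST.TP l D N p finProdFinEquiv (fun S => (multiplicity N i S : ℝ)) q m)
    (fun q p => ∏ k : Fin D, Pool.Agent.N842.ST.mk l N (k + 1) p (fun S => (multiplicity N i S : ℝ)) (q k))
    (fun q _ p _ m => Pool.Agent.N842.ST.TP_mod l D N p finProdFinEquiv _ q m)
    (fun q _ => by
      obtain ⟨C₁, hC₁⟩ := Pool.Agent.N842.ST.TP_bd l hl D hD N finProdFinEquiv (fun S => (multiplicity N i S : ℝ)) q
      obtain ⟨C₂, hC₂⟩ := Pool.Agent.N842.ST.mk_bd l hl D N (fun S => (multiplicity N i S : ℝ)) q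
      exact ⟨max C₁ C₂, fun p _ => ⟨fun m => (hC₁ p m).trans (le_max_left _ _), (hC₂ p).trans (le_max_right _ _)⟩⟩)
    (fun q hq => Pool.Agent.N842.ST.local_mean5 l hl D hD N finProdFinEquiv _ q ((hQm q).1 hq))
  refine ⟨c, hc, y₀, fun L r y hrL hy N' hN' f hf W hW hW1 => ?_⟩
  rw [exc_eq]
  refine h L r y hrL hy N' hN' f hf W hW hW1 _ fun m hm x hyx hxr w hw q hq => ?_
  have h1 := hm x hyx hxr w hw q (fun e => (hQm _).2 (hq e))
  simp only [monomial_eq, moment_eq l hl]
  exact h1

end Pool.Agent.Results.MP_4c4ce6_nt.ProductsOverNumberFields
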